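import Pool.Agent.W477.GM.Stms

/-! GM-SEQ2 -/

set_option maxHeartbeats 1000000

namespace Pool.Agent.W637.GM.Seq2

open Pool.Agent.W477.GM

theorem inf_kap (β : Ordinal.{0}) : Cardinal.aleph0 ≤ kap β :=
  (Cardinal.aleph0_le_beth _).trans (Order.le_succ _)

theorem add_one_lt_kap {β m : Ordinal.{0}} (hm : m < (kap β).ord) : m + 1 < (kap β).ord := by
  have h := Cardinal.isSuccLimit_ord (inf_kap β)
  rw [← Order.succ_eq_add_one]
  exact h.succ_lt hm

theorem ov_inj {β : Ordinal.{0}} {i j : Ib β} (h : ov i = ov j) : i = j := by
  unfold ov at h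
  exact (equivShrink.{0} (Set.Iio (kap β).ord)).symm.injective (Subtype.ext h)

theorem ov_surj {β m : Ordinal.{0}} (hm : m < (kap β).ord) : ∃ i : Ib β, ov i = m := by
  refine ⟨equivShrink.{0} (Set.Iio (kap β).ord) ⟨m, hm⟩, ?_⟩
  unfold ov
  rw [Equiv.symm_apply_apply]

theorem rs_len (K : J → Prop) (p : PP) (j : J) (h : K j) : (rs K p).len j = p.len j := by
  simp only [rs, h, if_true]

theorem rs_bit (K : J → Prop) (p : PP) (j : J) (h : K j) (o : Ordinal.{0}) :
    (rs K p).bit j o = p.bit j o := by
  simp only [rs, h, if_true]

theorem rs_rs (K : J → Prop) (p : PP) : rs K (rs K p) = rs K p := by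
  apply Cn.ext'
  · rfl
  · intro j
    by_cases h : K j
    · rw [rs_len K _ j h]
    · simp only [rs, h, if_false]
  · intro j o _
    by_cases h : K j
    · rw [rs_bit K _ j h]
    · simp only [rs, h, if_false]

theorem le_rs (K : J → Prop) (p : PP) : p ≤ rs K p := by
  refine ⟨le_rfl, fun j => ?_⟩
  by_cases h : K j
  · rw [rs_len K p j h]
    exact ⟨le_rfl, fun o _ => (rs_bit K p j h o).symm⟩
  · have h1 : (rs K p).len j = 0 := by simp only [rs, h, if_false]
    rw [h1]
    exact ⟨zero_le, fun o ho => absurd ho (not_lt.2 zero_le)⟩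

/-- extension of a condition at the two coordinates -/
theorem exists_ext (r : PP) (β : Ordinal.{0}) (n : ℕ) (m : Ordinal.{0}) (zz : Bool)
    (h0 : r.len (β, n, false) ≤ m) (h1 : r.len (β, n, true) ≤ m) (hm : m < (kap β).ord) :
    ∃ s : PP, s ≤ r ∧ s.len (β, n, false) = m + 1 ∧ s.len (β, n, true) = m + 1 ∧
      s.bit (β, n, false) m = true ∧ s.bit (β, n, true) m = zz := by
  classical
  have hmm : m < m + 1 := by rw [← Order.succ_eq_add_one]; exact Order.lt_succ m
  let s : PP :=
    { c := r.c
      len := fun j => if j = (β, n, false) ∨ j = (β, n, true) then m + 1 else r.len j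
      bit := fun j o => if j = (β, n, false) ∨ j = (β, n, true) then
        (if o < r.len j then r.bit j o else if o = m then (if j.2.2 = true then zz else true)
          else false) else r.bit j o
      fin := by
        refine (r.fin.union (Set.toFinite {((β, n, false) : J), (β, n, true)})).subset ?_
        intro j hj
        by_cases h : j = (β, n, false) ∨ j = (β, n, true)
        · right
          exact h
        · left
          simp only [Set.mem_setOf_eq, h, if_false] at hj
          exact hj
      lt := by
        intro j
        by_cases h : j = (β, n, false) ∨ j = (β, n, true)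
        · simp only [h, if_true]
          have h2 : j.1 = β := by rcases h with h | h <;> rw [h]
          rw [h2]
          exact add_one_lt_kap hm
        · simp only [h, if_false]
          exact r.lt j
      off := by
        intro j o ho
        by_cases h : j = (β, n, false) ∨ j = (β, n, true)
        · simp only [h, if_true] at ho ⊢
          have h3 : r.len j ≤ m := by
            rcases h with h | h
            · rw [h]; exact h0
            · rw [h]; exact h1
          have h4 : m < o := lt_of_lt_of_le hmm ho
          rw [if_neg (not_lt.2 (h3.trans h4.le)), if_neg h4.ne']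
        · simp only [h, if_false] at ho ⊢
          exact r.off j o ho
      sup := fun j _ => ENat.coe_lt_top _ }
  have hs0 : s.len (β, n, false) = m + 1 := by simp [s]
  have hs1 : s.len (β, n, true) = m + 1 := by simp [s]
  refine ⟨s, ⟨le_rfl, fun j => ?_⟩, hs0, hs1, ?_, ?_⟩
  · by_cases h : j = (β, n, false) ∨ j = (β, n, true)
    · have h3 : r.len j ≤ m := by
        rcases h with h | h
        · rw [h]; exact h0
        · rw [h]; exact h1
      refine ⟨?_, fun o ho => ?_⟩
      · show r.len j ≤ (if j = (β, n, false) ∨ j = (β, n, true) then m + 1 else r.len j)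
        rw [if_pos h]
        exact h3.trans hmm.le
      · show (if j = (β, n, false) ∨ j = (β, n, true) then
          (if o < r.len j then r.bit j o else if o = m then (if j.2.2 = true then zz else true)
          else false) else r.bit j o) = _
        rw [if_pos h, if_pos ho]
    · refine ⟨?_, fun o ho => ?_⟩
      · show r.len j ≤ (if j = (β, n, false) ∨ j = (β, n, true) then m + 1 else r.len j)
        rw [if_neg h]
      · show (if j = (β, n, false) ∨ j = (β, n, true) then
          (if o < r.len j then r.bit j o else if o = m then (if j.2.2 = true then zz else true)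
          else false) else r.bit j o) = _
        rw [if_neg h]
  · show (if ((β, n, false) : J) = (β, n, false) ∨ ((β, n, false) : J) = (β, n, true) then
          (if m < r.len (β, n, false) then r.bit (β, n, false) m else
            if m = m then (if false = true then zz else true)
          else false) else r.bit (β, n, false) m) = _
    rw [if_pos (Or.inl rfl), if_neg (not_lt.2 h0), if_pos rfl]
    simp
  · show (if ((β, n, true) : J) = (β, n, false) ∨ ((β, n, true) : J) = (β, n, true) then
          (if m < r.len (β, n, true) then r.bit (β, n, true) m else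
            if m = m then (if true = true then zz else true)
          else false) else r.bit (β, n, true) m) = _
    rw [if_pos (Or.inr rfl), if_neg (not_lt.2 h1), if_pos rfl, if_pos rfl]

theorem seq2_holds (h : P_EQ) (h3 : P_PR) : P_SEQ2 := by
  intro on hon β n p hfeq
  have E := h PP
  have R := h3 PP
  simp only [aN, feq] at hfeq
  obtain ⟨r, hrp, z, -, hz⟩ := hfeq.1 (fun _ => false) p le_rfl (R.top p)
  obtain ⟨m, hm, h0, h1⟩ : ∃ m, m < (kap β).ord ∧ r.len (β, n, false) ≤ m ∧
      r.len (β, n, true) ≤ m :=
    ⟨max (r.len (β, n, false)) (r.len (β, n, true)), max_lt (r.lt (β, n, false)) (r.lt (β, n, true)),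
      le_max_left _ _, le_max_right _ _⟩
  obtain ⟨i, hi⟩ := ov_surj hm
  have hmm : m < m + 1 := by rw [← Order.succ_eq_add_one]; exact Order.lt_succ m
  obtain ⟨s, hsr, hs0, hs1, hb0, hb1⟩ := exists_ext r β n m (z i) h0 h1 hm
  have hK : β < β + 1 := by rw [← Order.succ_eq_add_one]; exact Order.lt_succ β
  -- the element is in the left side
  have hleft : fmem (chk (on m)) (xN on β n false (fun _ => false)) s := by
    have := E.child (Ib β) (fun i p => rs (fun j => j.1 < β + 1) p = p ∧ ov i < p.len (β, n, false) ∧
      xor (p.bit (β, n, false) (ov i)) false = true) (fun i => chk (on (ov i))) i s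
      ⟨rs (fun j => j.1 < β + 1) s, ⟨rs_rs _ _, by
        rw [rs_len _ s (β, n, false) hK, hs0, hi]; exact hmm, by
        rw [rs_bit _ s (β, n, false) hK, hi, hb0]; rfl⟩, le_rs _ s⟩
    rw [hi] at this
    exact this
  have hright : fmem (chk (on m)) (xN on β n true z) s :=
    E.mcongr _ _ _ _ s (E.refl _ s) (E.mono _ _ r s hsr hz) hleft
  obtain ⟨s', hs's, j, ⟨u, ⟨-, hu1, hu2⟩, hs'u⟩, hfe⟩ := hright s le_rfl
  have hj : m = ov j := hon _ _ ((R.chk_eq _ _ _).1 hfe)
  have hji : j = i := ov_inj (hj.symm.trans hi.symm)
  subst hji
  rw [hi] at hu1 hu2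
  have e1 : s'.bit (β, n, true) m = u.bit (β, n, true) m := (hs'u.2 (β, n, true)).2 m hu1
  have e2 : s'.bit (β, n, true) m = s.bit (β, n, true) m :=
    (hs's.2 (β, n, true)).2 m (by rw [hs1]; exact hmm)
  rw [← e1, e2, hb1, Bool.xor_self] at hu2
  exact Bool.noConfusion hu2

end Pool.Agent.W637.GM.Seq2
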